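import Mathlib

/-!
Permutations that strongly avoid 321 and 1342: there are `2 F_{n+2} - n - 2` of them.
-/

set_option autoImplicit false

namespace Pool.Agent.Results.MP_aa036a_co.StrongFibonacci

/-- `π` contains the pattern with one-line notation `w`. -/
def Contains {n m : ℕ} (π : Equiv.Perm (Fin n)) (w : Fin m → ℕ) : Prop :=
  ∃ i : Fin m → Fin n, StrictMono i ∧ ∀ j k, π (i j) < π (i k) ↔ w j < w k

/-- The permutations `π` of `Fin n` such that `π` and `π²` avoid `321` and `1342`. -/
def SAv (n : ℕ) : Set (Equiv.Perm (Fin n)) :=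
  {π | ¬ Contains π ![3, 2, 1] ∧ ¬ Contains π ![1, 3, 4, 2] ∧
    ¬ Contains (π * π) ![3, 2, 1] ∧ ¬ Contains (π * π) ![1, 3, 4, 2]}

/-- avoiding `321` and `1342`, for functions -/
structure Av (f : ℕ → ℕ) : Prop where
  a : ∀ x y z, x < y → y < z → f z < f y → f y < f x → False
  b : ∀ x y z w, x < y → y < z → z < w → f x < f w → f w < f y → f y < f z → False

/-- permutations of `[0, n)`, extended by the identity -/
structure Pm (n : ℕ) (f : ℕ → ℕ) : Prop where
  inj : Function.Injective f
  lt : ∀ x, x < n → f x < n
  fix : ∀ x, n ≤ x → f x = x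

structure T (n : ℕ) (f : ℕ → ℕ) : Prop extends Pm n f where
  a1 : Av f
  a2 : Av (fun x => f (f x))

theorem Pm.surj {n : ℕ} {f : ℕ → ℕ} (h : Pm n f) {v : ℕ} (hv : v < n) : ∃ y, y < n ∧ f y = v := by
  let g : Fin n → Fin n := fun i => ⟨f i, h.lt i i.2⟩
  have hg : Function.Injective g := by
    intro i j hij
    apply Fin.ext
    exact h.inj (congrArg Fin.val hij)
  obtain ⟨y, hy⟩ := (Finite.injective_iff_surjective.1 hg) ⟨v, hv⟩
  exact ⟨y, y.2, congrArg Fin.val hy⟩

/-- the general shape -/
structure Sh (M r s t : ℕ) (f : ℕ → ℕ) : Prop where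
  r1 : 1 ≤ r
  st : s < t
  tM : t + r ≤ M
  f1 : ∀ i, i < r → f i = t + i
  f2 : ∀ i, r ≤ i → i < r + s → f i = i - r
  f3 : f (r + s) = M
  f4 : ∀ i, r + s < i → i ≤ r + t → f i = i - r - 1
  f5 : ∀ i, r + t < i → i ≤ M → f i = i - 1

theorem shape {M j : ℕ} {f : ℕ → ℕ} (hf : Pm (M + 1) f) (ha : Av f) (hj : j < M)
    (hfj : f j = M) :
    ((∀ x, x < j → f x < j) ∧ ∀ x, j < x → x ≤ M → f x = x - 1) ∨
      ∃ r s t, Sh M r s t f := by
  have ne : ∀ x y, x ≠ y → f x ≠ f y := fun x y h h' => h (hf.inj h')
  have ltM : ∀ x, x ≤ M → x ≠ j → f x < M := by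
    intro x hx hxj
    have h1 := hf.lt x (by omega)
    have h2 := ne x j hxj
    omega
  obtain ⟨b, hb⟩ : ∃ b, b = f (j + 1) := ⟨_, rfl⟩
  have hbM : b < M := hb ▸ ltM (j + 1) (by omega) (by omega)
  -- increasing after `j`
  have inc : ∀ x y, j < x → x < y → y ≤ M → f x < f y := by
    intro x y h1 h2 h3
    by_contra hcon
    have h4 := ne x y (by omega)
    exact ha.a j x y h1 h2 (by omega) (by rw [hfj]; exact ltM x (by omega) (by omega))
  have bmin : ∀ x, j < x → x ≤ M → b ≤ f x := by
    intro x h1 h2
    rcases Nat.lt_or_ge (j + 1) x with h3 | h3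
    · rw [hb]
      exact (inc (j + 1) x (by omega) h3 h2).le
    · have : x = j + 1 := by omega
      rw [hb, this]
  by_cases hA : ∃ x, x < j ∧ b < f x
  · right
    obtain ⟨x0, hx0, hbx0⟩ := hA
    have H1 : ∀ x y, x < y → y < j → b < f y → b < f x := by
      intro x y h1 h2 h3
      by_contra hcon
      have h4 := ne x (j + 1) (by omega)
      have h5 := ltM y (by omega) (by omega)
      exact ha.b x y j (j + 1) h1 h2 (by omega) (by omega) (by omega) (by omega)
    obtain ⟨r, hrj, hr1, hr2⟩ : ∃ r, r ≤ j ∧ (∀ x, x < r → b < f x) ∧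
        (∀ x, r ≤ x → x < j → f x < b) := by
      classical
      have hex : ∃ r, r = j ∨ (r < j ∧ ¬ b < f r) := ⟨j, Or.inl rfl⟩
      have hs := Nat.find_spec hex
      have hm := fun x (hx : x < Nat.find hex) => Nat.find_min hex hx
      set r := Nat.find hex with hr
      have hrj : r ≤ j := by omega
      refine ⟨r, hrj, ?_, ?_⟩
      · intro x hx
        have := hm x hx
        by_contra hcon
        apply this
        right
        exact ⟨by omega, hcon⟩
      · intro x h1 h2
        have h3 := ne x (j + 1) (by omega)
        by_contra hcon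
        have h4 : b < f x := by omega
        rcases Nat.lt_or_ge r x with h5 | h5
        · have := H1 r x h5 h2 h4
          rcases hs with h6 | h6
          · omega
          · exact h6.2 this
        · have h6 : x = r := by omega
          subst h6
          rcases hs with h7 | h7
          · omega
          · exact h7.2 h4
    have r1 : 1 ≤ r := by
      by_contra hcon
      have := hr2 x0 (by omega) hx0
      omega
    -- monotonicity
    have H3 : ∀ x y, x < y → y < r → f x < f y := by
      intro x y h1 h2
      by_contra hcon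
      have h3 := ne x y (by omega)
      have h4 := hr1 y h2
      exact ha.a x y (j + 1) h1 (by omega) (by omega) (by omega)
    have H4 : ∀ x y, r ≤ x → x < y → y < j → f x < f y := by
      intro x y h0 h1 h2
      by_contra hcon
      have h3 := ne x y (by omega)
      have h4 := hr1 0 (by omega)
      have h5 := hr2 x h0 (by omega)
      exact ha.a 0 x y (by omega) h1 (by omega) (by omega)
    obtain ⟨t, ht⟩ : ∃ t, t = f 0 := ⟨_, rfl⟩
    have H6 : ∀ i, i < r → f i = t + i := by
      intro i
      induction i with
      | zero => intro _; omega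
      | succ i ih =>
        intro hi
        have h1 := ih (by omega)
        have h2 := H3 i (i + 1) (by omega) hi
        by_contra hcon
        have h3 := ltM (i + 1) (by omega) (by omega)
        obtain ⟨y, hy, hfy⟩ := hf.surj (v := t + (i + 1)) (by omega)
        rcases Nat.lt_or_ge y r with h4 | h4
        · rcases Nat.lt_trichotomy y i with h5 | h5 | h5
          · have := H3 y i h5 (by omega)
            omega
          · subst h5
            omega
          · rcases Nat.lt_or_ge (i + 1) y with h6 | h6
            · have := H3 (i + 1) y h6 h4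
              omega
            · have : y = i + 1 := by omega
              subst this
              omega
        · rcases Nat.lt_trichotomy y j with h5 | h5 | h5
          · have h6 := hr2 y h4 h5
            have h7 := hr1 i (by omega)
            omega
          · subst h5
            omega
          · exact ha.b i (i + 1) j y (by omega) (by omega) h5 (by omega) (by omega) (by omega)
    have htM : t + r ≤ M := by
      have h1 := H6 (r - 1) (by omega)
      have h2 := ltM (r - 1) (by omega) (by omega)
      omega
    have H7 : ∀ i, r + i < j → f (r + i) = i := by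
      intro i
      induction i using Nat.strong_induction_on with
      | _ i ih =>
        intro hi
        have h1 := hr2 (r + i) (by omega) hi
        have h2 : i ≤ f (r + i) := by
          by_contra hcon
          have h3 := ih (f (r + i)) (by omega) (by omega)
          have h4 := ne (r + f (r + i)) (r + i) (by omega)
          omega
        obtain ⟨y, hy, hfy⟩ := hf.surj (v := i) (by omega)
        rcases Nat.lt_or_ge y r with h4 | h4
        · have := hr1 y h4
          omega
        · rcases Nat.lt_trichotomy y j with h5 | h5 | h5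
          · rcases Nat.lt_trichotomy y (r + i) with h6 | h6 | h6
            · have h7 := ih (y - r) (by omega) (by omega)
              rw [show r + (y - r) = y by omega] at h7
              omega
            · rw [← h6]
              exact hfy
            · have := H4 (r + i) y (by omega) h6 h5
              omega
          · subst h5
            omega
          · have := bmin y h5 (by omega)
            omega
    obtain ⟨s, hs⟩ : ∃ s, j = r + s := ⟨j - r, by omega⟩
    subst hs
    have hbs : b = s := by
      rcases Nat.lt_trichotomy b s with h1 | h1 | h1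
      · have h2 := H7 b (by omega)
        have h3 := ne (r + b) (r + s + 1) (by omega)
        omega
      · exact h1
      · obtain ⟨y, hy, hfy⟩ := hf.surj (v := s) (by omega)
        rcases Nat.lt_or_ge y r with h4 | h4
        · have := hr1 y h4
          omega
        · rcases Nat.lt_trichotomy y (r + s) with h5 | h5 | h5
          · have h6 := H7 (y - r) (by omega)
            rw [show r + (y - r) = y by omega] at h6
            omega
          · subst h5
            omega
          · have := bmin y h5 (by omega)
            omega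
    have hst : s < t := by
      have := hr1 0 (by omega)
      omega
    have H8 : ∀ i, r + s + 1 + i ≤ r + t → f (r + s + 1 + i) = s + i := by
      intro i
      induction i using Nat.strong_induction_on with
      | _ i ih =>
        intro hi
        obtain ⟨y, hy, hfy⟩ := hf.surj (v := s + i) (by omega)
        have h2 : s + i ≤ f (r + s + 1 + i) := by
          rcases Nat.eq_zero_or_pos i with h3 | h3
          · subst h3
            have := bmin (r + s + 1 + 0) (by omega) (by omega)
            omega
          · have h4 := ih (i - 1) (by omega) (by omega)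
            have h5 := inc (r + s + 1 + (i - 1)) (r + s + 1 + i) (by omega) (by omega) (by omega)
            omega
        rcases Nat.lt_or_ge y r with h4 | h4
        · have := H6 y h4
          omega
        · rcases Nat.lt_trichotomy y (r + s) with h5 | h5 | h5
          · have h6 := H7 (y - r) (by omega)
            rw [show r + (y - r) = y by omega] at h6
            omega
          · subst h5
            omega
          · rcases Nat.lt_trichotomy y (r + s + 1 + i) with h6 | h6 | h6
            · have h7 := ih (y - (r + s + 1)) (by omega) (by omega)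
              rw [show r + s + 1 + (y - (r + s + 1)) = y by omega] at h7
              omega
            · rw [← h6]
              exact hfy
            · have := inc (r + s + 1 + i) y (by omega) h6 (by omega)
              omega
    have H9 : ∀ x, r + t < x → x ≤ M → f x = x - 1 := by
      intro x
      induction x using Nat.strong_induction_on with
      | _ x ih =>
        intro hx1 hx2
        have h1 := ltM x hx2 (by omega)
        have h2 : x - 1 ≤ f x := by
          by_contra hcon
          obtain ⟨w, hw⟩ : ∃ w, w = f x := ⟨_, rfl⟩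
          rcases Nat.lt_or_ge w s with h3 | h3
          · have h4 := H7 w (by omega)
            have := ne (r + w) x (by omega)
            omega
          · rcases Nat.lt_or_ge w t with h4 | h4
            · have h5 := H8 (w - s) (by omega)
              have := ne (r + s + 1 + (w - s)) x (by omega)
              omega
            · rcases Nat.lt_or_ge w (t + r) with h5 | h5
              · have h6 := H6 (w - t) (by omega)
                have := ne (w - t) x (by omega)
                omega
              · have h6 := ih (w + 1) (by omega) (by omega) (by omega)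
                have := ne (w + 1) x (by omega)
                omega
        obtain ⟨y, hy, hfy⟩ := hf.surj (v := x - 1) (by omega)
        rcases Nat.lt_or_ge y r with h4 | h4
        · have := H6 y h4
          omega
        · rcases Nat.lt_trichotomy y (r + s) with h5 | h5 | h5
          · have h6 := H7 (y - r) (by omega)
            rw [show r + (y - r) = y by omega] at h6
            omega
          · subst h5
            omega
          · rcases Nat.lt_or_ge (r + t) y with h6 | h6
            · rcases Nat.lt_trichotomy y x with h7 | h7 | h7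
              · have := ih y h7 h6 (by omega)
                omega
              · rw [← h7] at hfy ⊢
                exact hfy
              · have := inc x y (by omega) h7 (by omega)
                omega
            · have h7 := H8 (y - (r + s + 1)) (by omega)
              rw [show r + s + 1 + (y - (r + s + 1)) = y by omega] at h7
              omega
    refine ⟨r, s, t, r1, hst, htM, H6, ?_, hfj, ?_, H9⟩
    · intro i h1 h2
      have := H7 (i - r) (by omega)
      rw [show r + (i - r) = i by omega] at this
      exact this
    · intro i h1 h2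
      have := H8 (i - (r + s + 1)) (by omega)
      rw [show r + s + 1 + (i - (r + s + 1)) = i by omega] at this
      omega
  · left
    have hlt : ∀ x, x < j → f x < b := by
      intro x hx
      by_contra hcon
      have h1 := ne x (j + 1) (by omega)
      exact hA ⟨x, hx, by omega⟩
    have himg : (Finset.range j).image f = Finset.range b := by
      ext v
      simp only [Finset.mem_image, Finset.mem_range]
      constructor
      · rintro ⟨x, hx, rfl⟩
        exact hlt x hx
      · intro hv
        obtain ⟨y, hy, hfy⟩ := hf.surj (v := v) (by omega)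
        refine ⟨y, ?_, hfy⟩
        rcases Nat.lt_trichotomy y j with h5 | h5 | h5
        · exact h5
        · subst h5
          omega
        · have := bmin y h5 (by omega)
          omega
    have hjb : j = b := by
      have := congrArg Finset.card himg
      rwa [Finset.card_image_of_injective _ hf.inj, Finset.card_range, Finset.card_range] at this
    refine ⟨fun x hx => by have := hlt x hx; omega, ?_⟩
    intro x
    induction x using Nat.strong_induction_on with
    | _ x ih =>
      intro hx1 hx2
      have h2 : x - 1 ≤ f x := by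
        rcases Nat.lt_or_ge (j + 1) x with h3 | h3
        · have h4 := ih (x - 1) (by omega) (by omega) (by omega)
          have h5 := inc (x - 1) x (by omega) (by omega) (by omega)
          omega
        · have := bmin x hx1 hx2
          omega
      obtain ⟨y, hy, hfy⟩ := hf.surj (v := x - 1) (by omega)
      rcases Nat.lt_trichotomy y j with h5 | h5 | h5
      · have := hlt y h5
        omega
      · subst h5
        omega
      · rcases Nat.lt_trichotomy y x with h7 | h7 | h7
        · have := ih y h7 h5 (by omega)
          omega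
        · rw [← h7] at hfy ⊢
          exact hfy
        · have := inc x y (by omega) h7 (by omega)
          omega

/-- the square of a permutation of the general shape contains a pattern -/
theorem Sh.bad {M r s t : ℕ} {f : ℕ → ℕ} (h : Sh M r s t f) (hf : Pm (M + 1) f)
    (ha : Av (fun x => f (f x))) : s = 0 ∧ t + r = M := by
  have ne : ∀ x y, x ≠ y → f x ≠ f y := fun x y h h' => h (hf.inj h')
  have hr1 := h.r1
  have hst := h.st
  have htM := h.tM
  have A := ha.a
  have B := ha.b
  by_contra hcon
  rcases Nat.lt_or_ge (t + r) M with h1 | h1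
  · -- the last point goes to `M - 1`
    have eM : f M = M - 1 := h.f5 M (by omega) le_rfl
    have gj : f (f (r + s)) = M - 1 := by rw [h.f3, eM]
    have hM1 : f (M - 1) < M - 1 := by
      have h2 := hf.lt (M - 1) (by omega)
      have h3 := ne (M - 1) M (by omega)
      have h4 := ne (M - 1) (r + s) (by omega)
      have h5 := h.f3
      omega
    have gM : f (f M) = f (M - 1) := by rw [eM]
    rcases Nat.lt_or_ge (r + s) t with h2 | h2
    · -- 1342
      have eq : f (r + s + r + 1) = r + s := by
        rw [h.f4 (r + s + r + 1) (by omega) (by omega)]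
        omega
      have gq : f (f (r + s + r + 1)) = M := by rw [eq, h.f3]
      have g0 : f (f 0) = t - r - 1 := by
        rw [h.f1 0 (by omega), Nat.add_zero, h.f4 t (by omega) (by omega)]
      have gM' : t - r - 1 < f (M - 1) := by
        rcases Nat.lt_or_ge (r + t) (M - 1) with h3 | h3
        · rw [h.f5 (M - 1) (by omega) (by omega)]
          omega
        · rw [h.f4 (M - 1) (by omega) (by omega)]
          omega
      exact B 0 (r + s) (r + s + r + 1) M (by omega) (by omega) (by omega) (by omega) (by omega)
        (by omega)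
    · -- 321
      have eq : f (r + s - t) = r + s := by
        rw [h.f1 (r + s - t) (by omega)]
        omega
      have gq : f (f (r + s - t)) = M := by rw [eq, h.f3]
      exact A (r + s - t) (r + s) M (by omega) (by omega) (by omega) (by omega)
  · have hM : t + r = M := by omega
    have hs : 1 ≤ s := by omega
    have eM : f M = t - 1 := by
      rw [h.f4 M (by omega) (by omega)]
      omega
    have gj : f (f (r + s)) = t - 1 := by rw [h.f3, eM]
    have gr : f (f r) = t := by
      rw [h.f2 r le_rfl (by omega), Nat.sub_self, h.f1 0 (by omega)]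
      omega
    rcases Nat.lt_or_ge (r + s) t with h2 | h2
    · have e1 : f (r + s + r) = r + s - 1 := by
        rw [h.f4 (r + s + r) (by omega) (by omega)]
        omega
      have e2 : f (r + s - 1) = s - 1 := by
        rw [h.f2 (r + s - 1) (by omega) (by omega)]
        omega
      have g1 : f (f (r + s + r)) = s - 1 := by rw [e1, e2]
      exact A r (r + s) (r + s + r) (by omega) (by omega) (by omega) (by omega)
    · have eq : f (r + s - t) = r + s := by
        rw [h.f1 (r + s - t) (by omega)]
        omega
      have gq : f (f (r + s - t)) = M := by rw [eq, h.f3]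
      exact A (r + s - t) r (r + s) (by omega) (by omega) (by omega) (by omega)

/-- rotation by `t` of `[0, N)` -/
def rot (N t x : ℕ) : ℕ := if x < N then (if x + t < N then x + t else x + t - N) else x

/-- the last two points are interchanged -/
def sw (M : ℕ) (f : ℕ → ℕ) (x : ℕ) : ℕ := if x = M - 1 then M else if x = M then M - 1 else f x

theorem classify {M : ℕ} {f : ℕ → ℕ} (h : T (M + 1) f) :
    T M f ∨ (2 ≤ M ∧ ∃ g, T (M - 1) g ∧ f = sw M g) ∨ ∃ t, 1 ≤ t ∧ t ≤ M ∧ f = rot (M + 1) t := by
  obtain ⟨j, hj, hfj⟩ := h.surj (v := M) (by omega)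
  have ne : ∀ x y, x ≠ y → f x ≠ f y := fun x y h' h'' => h' (h.inj h'')
  rcases Nat.lt_or_ge j M with hjM | hjM
  · right
    rcases shape h.toPm h.a1 hjM hfj with ⟨h1, h2⟩ | ⟨r, s, t, hs⟩
    · rcases Nat.eq_zero_or_pos j with h3 | h3
      · -- rotation by `M`
        right
        subst h3
        refine ⟨M, by omega, le_rfl, ?_⟩
        funext x
        unfold rot
        rcases Nat.eq_zero_or_pos x with h4 | h4
        · subst h4
          rw [hfj, if_pos (by omega), if_pos (by omega)]
          omega
        · rcases Nat.lt_or_ge x (M + 1) with h5 | h5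
          · rw [if_pos h5, if_neg (by omega), h2 x h4 (by omega)]
            omega
          · rw [if_neg (by omega)]
            exact h.fix x h5
      · left
        have hj1 : j = M - 1 := by
          by_contra hcon
          have B := h.a2.b
          have e0 := h1 0 h3
          have e00 : f (f 0) < j := h1 _ e0
          have eM : f M = M - 1 := h2 M hjM le_rfl
          have g1 : f (f j) = M - 1 := by rw [hfj, eM]
          have e1 : f (j + 1) = j := by
            rw [h2 (j + 1) (by omega) (by omega)]
            omega
          have g2 : f (f (j + 1)) = M := by rw [e1, hfj]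
          have e2 : f (j + 2) = j + 1 := by
            rw [h2 (j + 2) (by omega) (by omega)]
            omega
          have g3 : f (f (j + 2)) = j := by rw [e2, e1]
          exact B 0 j (j + 1) (j + 2) h3 (by omega) (by omega) (by omega) (by omega) (by omega)
        subst hj1
        have eM : f M = M - 1 := h2 M hjM le_rfl
        refine ⟨by omega, fun x => if x < M - 1 then f x else x, ?_, ?_⟩
        · -- the restriction
          have v1 : ∀ x, x < M - 1 → (if x < M - 1 then f x else x) = f x := fun x hx => if_pos hx
          have v2 : ∀ x, M - 1 ≤ x → (if x < M - 1 then f x else x) = x :=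
            fun x hx => if_neg (by omega)
          have vv : ∀ x, x < M - 1 → (if (if x < M - 1 then f x else x) < M - 1 then
              f (if x < M - 1 then f x else x) else (if x < M - 1 then f x else x)) = f (f x) := by
            intro x hx
            rw [v1 x hx, if_pos (h1 x hx)]
          have vw : ∀ x, M - 1 ≤ x → (if (if x < M - 1 then f x else x) < M - 1 then
              f (if x < M - 1 then f x else x) else (if x < M - 1 then f x else x)) = x := by
            intro x hx
            rw [v2 x hx, if_neg (by omega)]
          -- generic statement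
          have gen : ∀ (g g' : ℕ → ℕ), Av g → (∀ x, x < M - 1 → g' x = g x) →
              (∀ x, M - 1 ≤ x → g' x = x) → (∀ x, x < M - 1 → g x < M - 1) → Av g' := by
            intro g g' hg c1 c2 c3
            refine ⟨?_, ?_⟩
            · intro x y z hxy hyz k1 k2
              rcases Nat.lt_or_ge z (M - 1) with h5 | h5
              · rw [c1 z h5, c1 y (by omega)] at k1
                rw [c1 y (by omega), c1 x (by omega)] at k2
                exact hg.a x y z hxy hyz k1 k2
              · rw [c2 z h5] at k1
                rcases Nat.lt_or_ge y (M - 1) with h6 | h6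
                · have := c3 y h6
                  rw [c1 y h6] at k1
                  omega
                · rw [c2 y h6] at k1
                  omega
            · intro x y z w hxy hyz hzw k1 k2 k3
              rcases Nat.lt_or_ge w (M - 1) with h5 | h5
              · rw [c1 w h5] at k1 k2
                rw [c1 x (by omega)] at k1
                rw [c1 y (by omega)] at k2 k3
                rw [c1 z (by omega)] at k3
                exact hg.b x y z w hxy hyz hzw k1 k2 k3
              · rw [c2 w h5] at k2
                rcases Nat.lt_or_ge y (M - 1) with h6 | h6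
                · have := c3 y h6
                  rw [c1 y h6] at k2
                  omega
                · rw [c2 y h6] at k2
                  omega
          refine ⟨⟨?_, ?_, ?_⟩, ?_, ?_⟩
          · intro x y hxy
            simp only at hxy
            rcases Nat.lt_or_ge x (M - 1) with h5 | h5
            · rcases Nat.lt_or_ge y (M - 1) with h6 | h6
              · rw [v1 x h5, v1 y h6] at hxy
                exact h.inj hxy
              · rw [v1 x h5, v2 y h6] at hxy
                have := h1 x h5
                omega
            · rcases Nat.lt_or_ge y (M - 1) with h6 | h6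
              · rw [v2 x h5, v1 y h6] at hxy
                have := h1 y h6
                omega
              · rw [v2 x h5, v2 y h6] at hxy
                exact hxy
          · intro x hx
            simp only [v1 x hx]
            exact h1 x hx
          · intro x hx
            exact v2 x hx
          · exact gen f _ h.a1 v1 v2 h1
          · exact gen (fun x => f (f x)) _ h.a2 vv vw (fun x hx => h1 _ (h1 x hx))
        · funext x
          unfold sw
          by_cases c1 : x = M - 1
          · rw [if_pos c1, c1, hfj]
          · rw [if_neg c1]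
            by_cases c2 : x = M
            · rw [if_pos c2, c2, eM]
            · rw [if_neg c2]
              by_cases c3 : x < M - 1
              · simp only [if_pos c3]
              · simp only [if_neg c3]
                exact h.fix x (by omega)
    · right
      obtain ⟨hs0, htM⟩ := hs.bad h.toPm h.a2
      subst hs0
      have r1 := hs.r1
      have st := hs.st
      refine ⟨t, by omega, by omega, ?_⟩
      funext x
      unfold rot
      rcases Nat.lt_or_ge x (M + 1) with h5 | h5
      · rw [if_pos h5]
        rcases Nat.lt_trichotomy x r with h6 | h6 | h6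
        · rw [if_pos (by omega), hs.f1 x h6]
          omega
        · subst h6
          have := hs.f3
          rw [Nat.add_zero] at this
          rw [if_pos (by omega), this]
          omega
        · rw [if_neg (by omega), hs.f4 x (by omega) (by omega)]
          omega
      · rw [if_neg (by omega)]
        exact h.fix x h5
  · left
    have hjM' : j = M := by omega
    subst hjM'
    refine ⟨⟨h.inj, ?_, ?_⟩, h.a1, h.a2⟩
    · intro x hx
      have h1 := h.lt x (by omega)
      have h2 := ne x j (by omega)
      omega
    · intro x hx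
      rcases Nat.lt_or_ge j x with h1 | h1
      · exact h.fix x (by omega)
      · have : x = j := by omega
        rw [this, hfj]

theorem T.succ {M : ℕ} {f : ℕ → ℕ} (h : T M f) : T (M + 1) f where
  inj := h.inj
  lt x hx := by
    rcases Nat.lt_or_ge x M with h1 | h1
    · have := h.lt x h1
      omega
    · rw [h.fix x h1]
      exact hx
  fix x hx := h.fix x (by omega)
  a1 := h.a1
  a2 := h.a2

theorem T_sw {M : ℕ} {g : ℕ → ℕ} (hM : 2 ≤ M) (h : T (M - 1) g) : T (M + 1) (sw M g) := by
  have v : ∀ x, (x < M - 1 ∧ sw M g x = g x ∧ g x < M - 1) ∨ (x = M - 1 ∧ sw M g x = M) ∨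
      (x = M ∧ sw M g x = M - 1) ∨ (M < x ∧ sw M g x = x) := by
    intro x
    unfold sw
    by_cases c1 : x = M - 1
    · right; left
      exact ⟨c1, by rw [if_pos c1]⟩
    · by_cases c2 : x = M
      · right; right; left
        exact ⟨c2, by rw [if_neg c1, if_pos c2]⟩
      · rw [if_neg c1, if_neg c2]
        rcases Nat.lt_or_ge x (M - 1) with h1 | h1
        · left
          exact ⟨h1, rfl, h.lt x h1⟩
        · right; right; right
          exact ⟨by omega, h.fix x h1⟩
  have sq : (fun x => sw M g (sw M g x)) = fun x => g (g x) := by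
    funext x
    rcases v x with ⟨h1, h2, h3⟩ | ⟨h1, h2⟩ | ⟨h1, h2⟩ | ⟨h1, h2⟩
    · rw [h2]
      rcases v (g x) with ⟨h4, h5, _⟩ | ⟨h4, _⟩ | ⟨h4, _⟩ | ⟨h4, _⟩
      · exact h5
      · omega
      · omega
      · omega
    · rw [h2, h.fix x (by omega), h.fix x (by omega)]
      rcases v M with ⟨h4, _⟩ | ⟨h4, _⟩ | ⟨_, h4⟩ | ⟨h4, _⟩ <;> omega
    · rw [h2, h.fix x (by omega), h.fix x (by omega)]
      rcases v (M - 1) with ⟨h4, _⟩ | ⟨_, h4⟩ | ⟨h4, _⟩ | ⟨h4, _⟩ <;> omega
    · rw [h2, h2, h.fix x (by omega), h.fix x (by omega)]
  refine ⟨⟨?_, ?_, ?_⟩, ?_, ?_⟩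
  · intro x y hxy
    rcases v x with ⟨h1, h2, h3⟩ | ⟨h1, h2⟩ | ⟨h1, h2⟩ | ⟨h1, h2⟩ <;>
    rcases v y with ⟨k1, k2, k3⟩ | ⟨k1, k2⟩ | ⟨k1, k2⟩ | ⟨k1, k2⟩
    · rw [h2, k2] at hxy
      exact h.inj hxy
    all_goals omega
  · intro x hx
    rcases v x with ⟨h1, h2, h3⟩ | ⟨h1, h2⟩ | ⟨h1, h2⟩ | ⟨h1, h2⟩ <;> omega
  · intro x hx
    rcases v x with ⟨h1, h2, h3⟩ | ⟨h1, h2⟩ | ⟨h1, h2⟩ | ⟨h1, h2⟩ <;> omega
  · refine ⟨?_, ?_⟩
    · intro x y z hxy hyz k1 k2
      rcases Nat.lt_or_ge z (M - 1) with h5 | h5
      · have ex : sw M g x = g x := by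
          rcases v x with ⟨_, h2, _⟩ | ⟨h1, _⟩ | ⟨h1, _⟩ | ⟨h1, _⟩
          · exact h2
          all_goals omega
        have ey : sw M g y = g y := by
          rcases v y with ⟨_, h2, _⟩ | ⟨h1, _⟩ | ⟨h1, _⟩ | ⟨h1, _⟩
          · exact h2
          all_goals omega
        have ez : sw M g z = g z := by
          rcases v z with ⟨_, h2, _⟩ | ⟨h1, _⟩ | ⟨h1, _⟩ | ⟨h1, _⟩
          · exact h2
          all_goals omega
        rw [ez, ey] at k1
        rw [ey, ex] at k2
        exact h.a1.a x y z hxy hyz k1 k2
      · have ex := v x
        have ey := v y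
        have ez := v z
        omega
    · intro x y z w hxy hyz hzw k1 k2 k3
      rcases Nat.lt_or_ge w (M - 1) with h5 | h5
      · have e : ∀ u, u ≤ w → sw M g u = g u := by
          intro u hu
          rcases v u with ⟨_, h2, _⟩ | ⟨h1, _⟩ | ⟨h1, _⟩ | ⟨h1, _⟩
          · exact h2
          all_goals omega
        rw [e x (by omega), e w le_rfl] at k1
        rw [e w le_rfl, e y (by omega)] at k2
        rw [e y (by omega), e z (by omega)] at k3
        exact h.a1.b x y z w hxy hyz hzw k1 k2 k3
      · have ey := v y
        have ez := v z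
        have ew := v w
        omega
  · rw [sq]
    exact h.a2

theorem rot_val (N t x : ℕ) : (x < N ∧ x + t < N ∧ rot N t x = x + t) ∨
    (x < N ∧ N ≤ x + t ∧ rot N t x = x + t - N) ∨ (N ≤ x ∧ rot N t x = x) := by
  unfold rot
  split_ifs <;> omega

theorem Av_rot (N t : ℕ) (ht : t < N) : Av (rot N t) := by
  refine ⟨?_, ?_⟩
  · intro x y z hxy hyz k1 k2
    have ex := rot_val N t x
    have ey := rot_val N t y
    have ez := rot_val N t z
    omega
  · intro x y z w hxy hyz hzw k1 k2 k3
    have ex := rot_val N t x
    have ey := rot_val N t y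
    have ez := rot_val N t z
    have ew := rot_val N t w
    omega

theorem T_rot {M t : ℕ} (ht : t ≤ M) : T (M + 1) (rot (M + 1) t) := by
  refine ⟨⟨?_, ?_, ?_⟩, Av_rot _ _ (by omega), ?_⟩
  · intro x y hxy
    have ex := rot_val (M + 1) t x
    have ey := rot_val (M + 1) t y
    omega
  · intro x hx
    have ex := rot_val (M + 1) t x
    omega
  · intro x hx
    have ex := rot_val (M + 1) t x
    omega
  · have e : (fun x => rot (M + 1) t (rot (M + 1) t x)) =
        rot (M + 1) (if 2 * t < M + 1 then 2 * t else 2 * t - (M + 1)) := by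
      funext x
      have ex := rot_val (M + 1) t x
      have ey := rot_val (M + 1) t (rot (M + 1) t x)
      have ez := rot_val (M + 1) (if 2 * t < M + 1 then 2 * t else 2 * t - (M + 1)) x
      split_ifs at ez ⊢ <;> omega
    rw [e]
    apply Av_rot
    split_ifs <;> omega

/-- the sets to be counted -/
def TT (n : ℕ) : Set (ℕ → ℕ) := {f | T n f}

def SS (M : ℕ) : Set (ℕ → ℕ) := {f | 2 ≤ M ∧ ∃ g, T (M - 1) g ∧ f = sw M g}

def RR (M : ℕ) : Set (ℕ → ℕ) := {f | ∃ t, 1 ≤ t ∧ t ≤ M ∧ f = rot (M + 1) t}

theorem TT_succ (M : ℕ) : TT (M + 1) = TT M ∪ (SS M ∪ RR M) := by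
  ext f
  constructor
  · intro h
    rcases classify h with h1 | h1 | h1
    · exact Or.inl h1
    · exact Or.inr (Or.inl h1)
    · exact Or.inr (Or.inr h1)
  · rintro (h | ⟨hM, g, h1, rfl⟩ | ⟨t, h1, h2, rfl⟩)
    · exact h.succ
    · exact T_sw hM h1
    · exact T_rot h2

theorem SS_eq {M : ℕ} (hM : 2 ≤ M) : SS M = sw M '' TT (M - 1) := by
  ext f
  constructor
  · rintro ⟨_, g, h1, h2⟩
    exact ⟨g, h1, h2.symm⟩
  · rintro ⟨g, h1, h2⟩
    exact ⟨hM, g, h1, h2.symm⟩

theorem SS_card {M : ℕ} (hM : 2 ≤ M) : (SS M).ncard = (TT (M - 1)).ncard := by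
  rw [SS_eq hM]
  apply Set.InjOn.ncard_image
  intro g hg g' hg' hgg
  have hg : T (M - 1) g := hg
  have hg' : T (M - 1) g' := hg'
  funext x
  rcases Nat.lt_or_ge x (M - 1) with h1 | h1
  · have h2 := congrFun hgg x
    unfold sw at h2
    rwa [if_neg (by omega), if_neg (by omega), if_neg (by omega), if_neg (by omega)] at h2
  · rw [hg.fix x h1, hg'.fix x h1]

theorem RR_eq (M : ℕ) : RR M = (fun t => rot (M + 1) t) '' (Finset.Icc 1 M : Finset ℕ) := by
  ext f
  constructor
  · rintro ⟨t, h1, h2, h3⟩
    exact ⟨t, by simp [h1, h2], h3.symm⟩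
  · rintro ⟨t, h1, h2⟩
    rw [Finset.mem_coe, Finset.mem_Icc] at h1
    exact ⟨t, h1.1, h1.2, h2.symm⟩

theorem RR_card (M : ℕ) : (RR M).ncard = M := by
  rw [RR_eq, Set.InjOn.ncard_image, Set.ncard_coe_finset, Nat.card_Icc]
  · omega
  · intro t ht t' ht' htt
    rw [Finset.mem_coe, Finset.mem_Icc] at ht ht'
    have h2 := congrFun htt M
    simp only at h2
    have e1 := rot_val (M + 1) t M
    have e2 := rot_val (M + 1) t' M
    omega

theorem RR_fin (M : ℕ) : (RR M).Finite := by
  rw [RR_eq]
  exact (Finset.finite_toSet _).image _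

theorem SS_one {M : ℕ} (hM : M < 2) : SS M = ∅ := by
  ext f
  constructor
  · rintro ⟨h, _⟩
    omega
  · intro h
    exact absurd h (Set.notMem_empty f)

theorem TT_fin (n : ℕ) : (TT n).Finite := by
  induction n using Nat.strong_induction_on with
  | _ n ih =>
    rcases Nat.eq_zero_or_pos n with h | h
    · subst h
      apply Set.Finite.subset (Set.finite_singleton (fun x : ℕ => x))
      intro f hf
      have hf : T 0 f := hf
      rw [Set.mem_singleton_iff]
      funext x
      exact hf.fix x (Nat.zero_le x)
    · obtain ⟨M, rfl⟩ : ∃ M, n = M + 1 := ⟨n - 1, by omega⟩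
      rw [TT_succ]
      refine (ih M (by omega)).union (Set.Finite.union ?_ (RR_fin M))
      rcases Nat.lt_or_ge M 2 with h2 | h2
      · rw [SS_one h2]
        exact Set.finite_empty
      · rw [SS_eq h2]
        exact (ih (M - 1) (by omega)).image _

theorem SS_fin (M : ℕ) : (SS M).Finite :=
  (TT_fin (M + 1)).subset (by
    rw [TT_succ]
    exact fun f hf => Or.inr (Or.inl hf))

theorem disj1 (M : ℕ) : Disjoint (SS M) (RR M) := by
  rw [Set.disjoint_left]
  rintro f ⟨hM, g, hg, rfl⟩ ⟨t, h1, h2, h3⟩
  have e1 := congrFun h3 M
  have e2 := congrFun h3 (M - 1)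
  have r1 := rot_val (M + 1) t M
  have r2 := rot_val (M + 1) t (M - 1)
  unfold sw at e1 e2
  rw [if_neg (by omega), if_pos rfl] at e1
  rw [if_pos rfl] at e2
  omega

theorem disj2 (M : ℕ) : Disjoint (TT M) (SS M ∪ RR M) := by
  rw [Set.disjoint_left]
  rintro f hf (⟨hM, g, hg, rfl⟩ | ⟨t, h1, h2, rfl⟩)
  · have hf : T M (sw M g) := hf
    have e1 := hf.fix M le_rfl
    unfold sw at e1
    rw [if_neg (by omega), if_pos rfl] at e1
    omega
  · have hf : T M (rot (M + 1) t) := hf
    have e1 := hf.fix M le_rfl
    have r1 := rot_val (M + 1) t M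
    omega

theorem card_succ (M : ℕ) : (TT (M + 1)).ncard = (TT M).ncard + ((SS M).ncard + M) := by
  rw [TT_succ, Set.ncard_union_eq (disj2 M) (TT_fin M) ((SS_fin M).union (RR_fin M)),
    Set.ncard_union_eq (disj1 M) (SS_fin M) (RR_fin M), RR_card]

theorem card_zero : (TT 0).ncard = 1 := by
  have : TT 0 = {fun x : ℕ => x} := by
    ext f
    rw [Set.mem_singleton_iff]
    constructor
    · intro hf
      have hf : T 0 f := hf
      funext x
      exact hf.fix x (Nat.zero_le x)
    · rintro rfl
      refine ⟨⟨fun x y h => h, fun x hx => hx, fun x _ => rfl⟩, ⟨?_, ?_⟩, ⟨?_, ?_⟩⟩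
      · intro x y z h1 h2 h3 h4
        omega
      · intro x y z w h1 h2 h3 h4 h5 h6
        omega
      · intro x y z h1 h2 h3 h4
        omega
      · intro x y z w h1 h2 h3 h4 h5 h6
        omega
  rw [this, Set.ncard_singleton]

theorem card_one : (TT 1).ncard = 1 := by
  have := card_succ 0
  rw [card_zero, SS_one (by omega), Set.ncard_empty] at this
  exact this

theorem card_two : (TT 2).ncard = 2 := by
  have := card_succ 1
  rw [card_one, SS_one (by omega), Set.ncard_empty] at this
  exact this

theorem card_add (n : ℕ) : (TT (n + 3)).ncard = (TT (n + 2)).ncard + (TT (n + 1)).ncard + (n + 2) := by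
  have := card_succ (n + 2)
  rw [SS_card (by omega)] at this
  rw [show n + 3 = n + 2 + 1 by omega, this, show n + 2 - 1 = n + 1 by omega]
  omega

theorem card_formula (n : ℕ) : (TT (n + 1)).ncard + (n + 3) = 2 * Nat.fib (n + 3) ∧
    (TT (n + 2)).ncard + (n + 4) = 2 * Nat.fib (n + 4) := by
  induction n with
  | zero =>
    rw [Nat.zero_add, card_one, card_two]
    exact ⟨rfl, rfl⟩
  | succ n ih =>
    refine ⟨?_, ?_⟩
    · have := ih.2
      rw [show n + 1 + 1 = n + 2 by omega, show n + 1 + 3 = n + 4 by omega]
      exact this
    · rw [show n + 1 + 2 = n + 3 by omega, card_add, show n + 1 + 4 = (n + 3) + 2 by omega,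
        Nat.fib_add_two, show n + 3 + 1 = n + 4 by omega]
      omega

/-- extension by the identity -/
def ext {n : ℕ} (π : Equiv.Perm (Fin n)) (x : ℕ) : ℕ := if h : x < n then (π ⟨x, h⟩ : ℕ) else x

theorem ext_lt {n : ℕ} (π : Equiv.Perm (Fin n)) {x : ℕ} (h : x < n) :
    ext π x = (π ⟨x, h⟩ : ℕ) := dif_pos h

theorem ext_ge {n : ℕ} (π : Equiv.Perm (Fin n)) {x : ℕ} (h : n ≤ x) : ext π x = x :=
  dif_neg (by omega)

theorem ext_val {n : ℕ} (π : Equiv.Perm (Fin n)) (x : ℕ) :
    (x < n ∧ ext π x < n) ∨ (n ≤ x ∧ ext π x = x) := by
  rcases Nat.lt_or_ge x n with h | h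
  · left
    rw [ext_lt π h]
    exact ⟨h, (π _).2⟩
  · right
    exact ⟨h, ext_ge π h⟩

theorem ext_mul {n : ℕ} (π : Equiv.Perm (Fin n)) :
    ext (π * π) = fun x => ext π (ext π x) := by
  funext x
  rcases Nat.lt_or_ge x n with h | h
  · rw [ext_lt _ h, ext_lt π h, ext_lt π (π ⟨x, h⟩).2]
    rfl
  · rw [ext_ge _ h, ext_ge π h, ext_ge π h]

theorem ext_pm {n : ℕ} (π : Equiv.Perm (Fin n)) : Pm n (ext π) where
  inj x y hxy := by
    rcases Nat.lt_or_ge x n with h | h <;> rcases Nat.lt_or_ge y n with h' | h'
    · rw [ext_lt _ h, ext_lt _ h'] at hxy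
      have := π.injective (Fin.ext hxy)
      exact congrArg Fin.val this
    · rw [ext_lt _ h, ext_ge _ h'] at hxy
      have := (π ⟨x, h⟩).2
      omega
    · rw [ext_ge _ h, ext_lt _ h'] at hxy
      have := (π ⟨y, h'⟩).2
      omega
    · rwa [ext_ge _ h, ext_ge _ h'] at hxy
  lt x hx := by
    rw [ext_lt _ hx]
    exact (π _).2
  fix x hx := ext_ge π hx

theorem pat {n m : ℕ} (π : Equiv.Perm (Fin n)) (w : Fin m → ℕ) (i : Fin m → ℕ)
    (hi : StrictMono i) (hn : ∀ k, i k < n)
    (h : ∀ j k, ext π (i j) < ext π (i k) ↔ w j < w k) : Contains π w := by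
  refine ⟨fun k => ⟨i k, hn k⟩, fun a b hab => hi hab, ?_⟩
  intro j k
  rw [← h j k, ext_lt π (hn j), ext_lt π (hn k)]
  exact Iff.rfl

theorem c321 {n : ℕ} (π : Equiv.Perm (Fin n)) : Contains π ![3, 2, 1] ↔
    ∃ x y z, x < y ∧ y < z ∧ ext π z < ext π y ∧ ext π y < ext π x := by
  constructor
  · rintro ⟨i, hi, h⟩
    refine ⟨i 0, i 1, i 2, hi (by decide), hi (by decide), ?_, ?_⟩
    · rw [ext_lt π (i 2).2, ext_lt π (i 1).2]
      exact (h 2 1).2 (by decide)
    · rw [ext_lt π (i 1).2, ext_lt π (i 0).2]
      exact (h 1 0).2 (by decide)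
  · rintro ⟨x, y, z, h1, h2, h3, h4⟩
    have vx := ext_val π x
    have vy := ext_val π y
    have vz := ext_val π z
    have hz : z < n := by omega
    refine pat π ![3, 2, 1] ![x, y, z] ?_ ?_ ?_
    · intro a b hab
      fin_cases a <;> fin_cases b <;> simp at hab ⊢ <;> omega
    · intro a
      fin_cases a <;> simp <;> omega
    · intro a b
      fin_cases a <;> fin_cases b <;> simp <;> omega

theorem c1342 {n : ℕ} (π : Equiv.Perm (Fin n)) : Contains π ![1, 3, 4, 2] ↔
    ∃ x y z w, x < y ∧ y < z ∧ z < w ∧ ext π x < ext π w ∧ ext π w < ext π y ∧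
      ext π y < ext π z := by
  constructor
  · rintro ⟨i, hi, h⟩
    refine ⟨i 0, i 1, i 2, i 3, hi (by decide), hi (by decide), hi (by decide), ?_, ?_, ?_⟩
    · rw [ext_lt π (i 0).2, ext_lt π (i 3).2]
      exact (h 0 3).2 (by decide)
    · rw [ext_lt π (i 3).2, ext_lt π (i 1).2]
      exact (h 3 1).2 (by decide)
    · rw [ext_lt π (i 1).2, ext_lt π (i 2).2]
      exact (h 1 2).2 (by decide)
  · rintro ⟨x, y, z, w, h1, h2, h3, h4, h5, h6⟩
    have vx := ext_val π x
    have vy := ext_val π y
    have vz := ext_val π z
    have vw := ext_val π w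
    have hw : w < n := by omega
    refine pat π ![1, 3, 4, 2] ![x, y, z, w] ?_ ?_ ?_
    · intro a b hab
      fin_cases a <;> fin_cases b <;> simp at hab ⊢ <;> omega
    · intro a
      fin_cases a <;> simp <;> omega
    · intro a b
      fin_cases a <;> fin_cases b <;> simp <;> omega

theorem avoid_iff {n : ℕ} (π : Equiv.Perm (Fin n)) :
    (¬ Contains π ![3, 2, 1] ∧ ¬ Contains π ![1, 3, 4, 2]) ↔ Av (ext π) := by
  rw [c321, c1342]
  constructor
  · rintro ⟨h1, h2⟩
    exact ⟨fun x y z a b c d => h1 ⟨x, y, z, a, b, c, d⟩,
      fun x y z w a b c d e f => h2 ⟨x, y, z, w, a, b, c, d, e, f⟩⟩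
  · intro h
    exact ⟨fun ⟨x, y, z, a, b, c, d⟩ => h.a x y z a b c d,
      fun ⟨x, y, z, w, a, b, c, d, e, f⟩ => h.b x y z w a b c d e f⟩

theorem mem_iff {n : ℕ} (π : Equiv.Perm (Fin n)) : π ∈ SAv n ↔ T n (ext π) := by
  have h1 := avoid_iff π
  have h2 := avoid_iff (π * π)
  rw [ext_mul] at h2
  constructor
  · rintro ⟨a, b, c, d⟩
    exact ⟨ext_pm π, h1.1 ⟨a, b⟩, h2.1 ⟨c, d⟩⟩
  · intro h
    have k1 := h1.2 h.a1
    have k2 := h2.2 h.a2
    exact ⟨k1.1, k1.2, k2.1, k2.2⟩

theorem image_eq (n : ℕ) : ext '' SAv n = TT n := by
  ext f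
  constructor
  · rintro ⟨π, h1, rfl⟩
    exact (mem_iff π).1 h1
  · intro hf
    have hf : T n f := hf
    let g : Fin n → Fin n := fun i => ⟨f i, hf.lt i i.2⟩
    have hg : Function.Injective g := by
      intro i j hij
      apply Fin.ext
      exact hf.inj (congrArg Fin.val hij)
    let π : Equiv.Perm (Fin n) := Equiv.ofBijective g ⟨hg, Finite.injective_iff_surjective.1 hg⟩
    have e : ext π = f := by
      funext x
      rcases Nat.lt_or_ge x n with h | h
      · rw [ext_lt _ h]
        rfl
      · rw [ext_ge _ h, hf.fix x h]
    refine ⟨π, ?_, e⟩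
    rw [mem_iff, e]
    exact hf

theorem ext_inj (n : ℕ) : Function.Injective (ext (n := n)) := by
  intro π ρ h
  apply Equiv.ext
  intro i
  have := congrFun h i
  rw [ext_lt π i.2, ext_lt ρ i.2] at this
  exact Fin.ext this

/-- The number of permutations of `n` letters that strongly avoid `321` and `1342` is
`2 F_{n+2} - n - 2`. -/
theorem result : ∀ n : ℕ, 1 ≤ n → ((SAv n).ncard : ℤ) = 2 * (Nat.fib (n + 2) : ℤ) - n - 2 := by
  intro n hn
  obtain ⟨m, rfl⟩ : ∃ m, n = m + 1 := ⟨n - 1, by omega⟩
  have h1 : (SAv (m + 1)).ncard = (TT (m + 1)).ncard := by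
    rw [← image_eq, Set.ncard_image_of_injective _ (ext_inj _)]
  have h2 := (card_formula m).1
  rw [h1]
  have h3 : ((TT (m + 1)).ncard : ℤ) + (m + 3) = 2 * (Nat.fib (m + 3) : ℤ) := by exact_mod_cast h2
  rw [show m + 1 + 2 = m + 3 by omega]
  push_cast
  linarith

end Pool.Agent.Results.MP_aa036a_co.StrongFibonacci
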